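import Pool.Agent.helper75.AU.SpecW

/-!
# Project au (MP_97532f_ag): QW4
-/

set_option linter.unusedVariables false

namespace Pool.Agent.helper53.AU

open scoped Classical IntermediateField
open Polynomial (aeval)

noncomputable section

theorem QW4_ge {k F : Type} [Field k] [Field F] [Algebra k F] (P : Place k F) (x : F) (f : Polynomial k)
    (hx : P.Ge 0 x) : P.Ge 0 (aeval x f) := by
  rw [Polynomial.aeval_eq_sum_range]
  refine Place.Ge.sum _ _ ?_
  intro i _
  have h := hx.pow i
  rw [mul_zero] at h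
  exact h.smul _

theorem QW4_ord {k F : Type} [Field k] [Field F] [Algebra k F] (P : Place k F) (x : F) (f : Polynomial k)
    (hf : f ≠ 0) (hx : P.ord x < 0) :
    aeval x f ≠ 0 ∧ P.ord (aeval x f) = (f.natDegree : ℤ) * P.ord x := by
  have hx0 : x ≠ 0 := by
    rintro rfl
    rw [P.ord_zero] at hx
    omega
  have hlc : f.leadingCoeff ≠ 0 := Polynomial.leadingCoeff_ne_zero.2 hf
  have hA : algebraMap k F f.leadingCoeff ≠ 0 := by simpa using hlc
  have h1 : f.coeff f.natDegree • x ^ f.natDegree = algebraMap k F f.leadingCoeff * x ^ f.natDegree := by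
    rw [Algebra.smul_def]; rfl
  have hne : f.coeff f.natDegree • x ^ f.natDegree ≠ 0 := by
    rw [h1]
    exact mul_ne_zero hA (pow_ne_zero _ hx0)
  have hord : P.ord (f.coeff f.natDegree • x ^ f.natDegree) = (f.natDegree : ℤ) * P.ord x := by
    rw [h1, P.ord_mul _ _ hA (pow_ne_zero _ hx0), P.ord_const _ hlc, P.ord_pow hx0, zero_add]
  have hrest : P.Ge (P.ord (f.coeff f.natDegree • x ^ f.natDegree) + 1)
      (∑ i ∈ Finset.range f.natDegree, f.coeff i • x ^ i) := by
    refine Place.Ge.sum _ _ ?_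
    intro i hi
    rw [Finset.mem_range] at hi
    have h := ((P.ge_ord x).pow i).smul (f.coeff i)
    refine h.mono ?_
    rw [hord]
    have h2 : (i : ℤ) + 1 ≤ (f.natDegree : ℤ) := by exact_mod_cast hi
    nlinarith
  have h3 := Place.ord_add_eq hne hrest
  have h4 : aeval x f = f.coeff f.natDegree • x ^ f.natDegree +
      ∑ i ∈ Finset.range f.natDegree, f.coeff i • x ^ i := by
    rw [Polynomial.aeval_eq_sum_range, Finset.sum_range_succ, add_comm]
  rw [h4]
  exact ⟨h3.1, by rw [h3.2, hord]⟩

/-- a finsum of nonnegative integers equal to 2, all terms different from 1: exactly one term is 2 -/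
theorem QW4_sum {ι : Type} (a : ι → ℤ) (h0 : ∀ i, 0 ≤ a i) (h2 : ∀ i, 2 ∣ a i) (hs : ∑ᶠ i, a i = 2) :
    ∃ i, a i = 2 ∧ ∀ j, j ≠ i → a j = 0 := by
  have hfin : (Function.support a).Finite := by
    by_contra h
    rw [finsum_of_infinite_support h] at hs
    omega
  rw [finsum_eq_sum_of_support_subset a (s := hfin.toFinset) (by simp)] at hs
  obtain ⟨i, hi, hi0⟩ : ∃ i ∈ hfin.toFinset, a i ≠ 0 := by
    by_contra h
    push Not at h
    rw [Finset.sum_eq_zero h] at hs
    omega
  have hge : ∀ j, a j ≠ 0 → 2 ≤ a j := by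
    intro j hj
    have := h0 j
    have := h2 j
    omega
  have hother : ∀ j, j ≠ i → a j = 0 := by
    intro j hji
    by_contra hj
    have hjm : j ∈ hfin.toFinset := by simpa using hj
    have h1 : ∑ t ∈ ({i, j} : Finset ι), a t ≤ ∑ t ∈ hfin.toFinset, a t := by
      refine Finset.sum_le_sum_of_subset_of_nonneg ?_ (fun t _ _ => h0 t)
      intro t ht
      simp only [Finset.mem_insert, Finset.mem_singleton] at ht
      rcases ht with rfl | rfl
      · exact hi
      · exact hjm
    rw [Finset.sum_pair hji.symm, hs] at h1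
    have := hge i hi0
    have := hge j hj
    omega
  refine ⟨i, ?_, hother⟩
  rw [Finset.sum_eq_single i (fun j _ hj => hother j hj) (fun h => absurd hi h)] at hs
  exact hs

theorem QW4 (hW3 : QW3_stmt) (hZ3 : QZ3_stmt) : QW4_stmt := by
  intro k F _ _ _ _ f x y m hsq hdeg hH
  obtain ⟨hFF, hdx⟩ := hW3 k F f x y hsq (by omega) hH
  have hpoles := (hZ3 k F hFF x hH.tr).2
  rw [hdx] at hpoles
  have hf : f ≠ 0 := by
    rintro rfl
    rw [Polynomial.natDegree_zero] at hdeg
    omega
  have hfx : aeval x f ≠ 0 := by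
    intro h
    exact hH.tr ⟨f, hf, h⟩
  have hy0 : y ≠ 0 := by
    rintro rfl
    apply hfx
    rw [← hH.eq]
    ring
  have hyo : ∀ P : Place k F, 2 * P.ord y = P.ord (aeval x f) := by
    intro P
    rw [← hH.eq, P.ord_pow hy0]
    norm_num
  have hpole : ∀ P : Place k F, P.ord x < 0 → 2 * P.ord y = ((2 * m + 1 : ℕ) : ℤ) * P.ord x := by
    intro P hP
    rw [hyo P, (QW4_ord P x f hf hP).2, hdeg]
  obtain ⟨P₀, h1, h2⟩ := QW4_sum (fun P : Place k F => max (-P.ord x) 0) (fun P => le_max_right _ _)
    (fun P => by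
      by_cases hP : P.ord x < 0
      · have h := hpole P hP
        have hm : max (-P.ord x) 0 = -P.ord x := max_eq_left (by omega)
        show 2 ∣ max (-P.ord x) 0
        rw [hm]
        push_cast at h
        refine ⟨-(P.ord y - m * P.ord x), ?_⟩
        linarith
      · have hm : max (-P.ord x) 0 = 0 := max_eq_right (by omega)
        show 2 ∣ max (-P.ord x) 0
        rw [hm]
        exact dvd_zero _) hpoles
  have hx0 : P₀.ord x = -2 := by
    have h3 : max (-P₀.ord x) 0 = 2 := h1
    rcases max_choice (-P₀.ord x) 0 with h | h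
    · rw [h] at h3; omega
    · rw [h] at h3; omega
  have hge : ∀ P : Place k F, P ≠ P₀ → P.Ge 0 x := by
    intro P hP
    have h3 : max (-P.ord x) 0 = 0 := h2 P hP
    have h4 : -P.ord x ≤ 0 := by rw [← h3]; exact le_max_left _ _
    exact Or.inr (by omega)
  refine ⟨P₀, hge, ?_, hx0, ?_⟩
  · intro P hP
    have h3 := (QW4_ge P x f (hge P hP)).le hfx
    have h4 := hyo P
    exact Or.inr (by omega)
  · have h3 := hpole P₀ (by omega)
    rw [hx0] at h3
    omega

end

end Pool.Agent.helper53.AU
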