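import Pool.Agent.helper75.AU.SpecW

/-!
# Project au (MP_97532f_ag): QW8
-/

set_option linter.unusedVariables false

namespace Pool.Agent.helper53.AU

open scoped Classical IntermediateField
open Polynomial (aeval)

noncomputable section

theorem QW8_gen {k F : Type} [Field k] [Field F] [Algebra k F] {x y x' y' : F}
    (h : IntermediateField.adjoin k ({x, y} : Set F) = ⊤)
    (hx : x ∈ IntermediateField.adjoin k ({x', y'} : Set F))
    (hy : y ∈ IntermediateField.adjoin k ({x', y'} : Set F)) :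
    IntermediateField.adjoin k ({x', y'} : Set F) = ⊤ := by
  rw [eq_top_iff, ← h, IntermediateField.adjoin_le_iff]
  intro z hz
  simp only [Set.mem_insert_iff, Set.mem_singleton_iff] at hz
  rcases hz with rfl | rfl
  · exact hx
  · exact hy

/-- first type: `(c x, s y)` with `c ^ n = 1`, `s² = 1` -/
theorem QW8_one {k F : Type} [Field k] [Field F] [Algebra k F] {x y : F} (n : ℕ)
    (hH : Hyp k x y (Polynomial.X ^ n - 1)) (c s : k) (hc0 : c ≠ 0) (hc : c ^ n = 1)
    (hs0 : s ≠ 0) (hs : s ^ 2 = 1) :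
    Hyp k (algebraMap k F c * x) (algebraMap k F s * y) (Polynomial.X ^ n - 1) := by
  have hc0' : algebraMap k F c ≠ 0 := by simpa using hc0
  have hs0' : algebraMap k F s ≠ 0 := by simpa using hs0
  refine ⟨?_, ?_, ?_⟩
  · intro h
    apply hH.tr
    have h1 : x = algebraMap k F c⁻¹ * (algebraMap k F c * x) := by
      rw [map_inv₀]; field_simp
    rw [h1]
    exact (isAlgebraic_algebraMap _).mul h
  · have h1 := hH.eq
    simp only [map_sub, map_pow, Polynomial.aeval_X, map_one] at h1 ⊢
    rw [mul_pow, mul_pow, h1, ← map_pow, ← map_pow, hc, hs]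
    simp
  · refine QW8_gen hH.gen ?_ ?_
    · have h1 : x = algebraMap k F c⁻¹ * (algebraMap k F c * x) := by
        rw [map_inv₀]; field_simp
      have h2 : algebraMap k F c * x ∈ IntermediateField.adjoin k
          ({algebraMap k F c * x, algebraMap k F s * y} : Set F) :=
        IntermediateField.subset_adjoin k _ (Set.mem_insert _ _)
      have h3 := mul_mem (IntermediateField.algebraMap_mem (IntermediateField.adjoin k
          ({algebraMap k F c * x, algebraMap k F s * y} : Set F)) c⁻¹) h2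
      rw [← h1] at h3
      exact h3
    · have h1 : y = algebraMap k F s⁻¹ * (algebraMap k F s * y) := by
        rw [map_inv₀]; field_simp
      have h2 : algebraMap k F s * y ∈ IntermediateField.adjoin k
          ({algebraMap k F c * x, algebraMap k F s * y} : Set F) :=
        IntermediateField.subset_adjoin k _ (Set.mem_insert_of_mem _ (Set.mem_singleton _))
      have h3 := mul_mem (IntermediateField.algebraMap_mem (IntermediateField.adjoin k
          ({algebraMap k F c * x, algebraMap k F s * y} : Set F)) s⁻¹) h2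
      rw [← h1] at h3
      exact h3

/-- second type: `(c / x, s y / x ^ m)` with `c ^ (2 m) = 1`, `s² = -1` -/
theorem QW8_two {k F : Type} [Field k] [Field F] [Algebra k F] {x y : F} (m : ℕ) (hm : 0 < m)
    (hH : Hyp k x y (Polynomial.X ^ (2 * m) - 1)) (c s : k) (hc0 : c ≠ 0) (hc : c ^ (2 * m) = 1)
    (hs0 : s ≠ 0) (hs : s ^ 2 = -1) :
    Hyp k (algebraMap k F c * x⁻¹) (algebraMap k F s * (y * (x ^ m)⁻¹)) (Polynomial.X ^ (2 * m) - 1) := by
  have hc0' : algebraMap k F c ≠ 0 := by simpa using hc0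
  have hs0' : algebraMap k F s ≠ 0 := by simpa using hs0
  have hx0 : x ≠ 0 := by
    rintro rfl
    exact hH.tr isAlgebraic_zero
  have hxx : x = algebraMap k F c * (algebraMap k F c * x⁻¹)⁻¹ := by
    field_simp
  refine ⟨?_, ?_, ?_⟩
  · intro h
    apply hH.tr
    rw [hxx]
    exact (isAlgebraic_algebraMap _).mul h.inv
  · have h1 := hH.eq
    simp only [map_sub, map_pow, Polynomial.aeval_X, map_one] at h1 ⊢
    rw [mul_pow, mul_pow, mul_pow, h1, ← map_pow, ← map_pow, hc, hs]
    have h2 : ((x ^ m)⁻¹) ^ 2 = (x ^ (2 * m))⁻¹ := by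
      rw [inv_pow, ← pow_mul, mul_comm m 2]
    rw [h2, map_neg, map_one, one_mul, inv_pow]
    have h3 : x ^ (2 * m) ≠ 0 := pow_ne_zero _ hx0
    field_simp
    ring
  · have hxm : x ∈ IntermediateField.adjoin k
        ({algebraMap k F c * x⁻¹, algebraMap k F s * (y * (x ^ m)⁻¹)} : Set F) := by
      have h0 : algebraMap k F c * x⁻¹ ∈ IntermediateField.adjoin k
        ({algebraMap k F c * x⁻¹, algebraMap k F s * (y * (x ^ m)⁻¹)} : Set F) :=
        IntermediateField.subset_adjoin k _ (Set.mem_insert _ _)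
      have h1 := mul_mem (IntermediateField.algebraMap_mem (IntermediateField.adjoin k
        ({algebraMap k F c * x⁻¹, algebraMap k F s * (y * (x ^ m)⁻¹)} : Set F)) c) (inv_mem h0)
      rw [← hxx] at h1
      exact h1
    refine QW8_gen hH.gen hxm ?_
    have h1 : y = algebraMap k F s⁻¹ * (algebraMap k F s * (y * (x ^ m)⁻¹)) * x ^ m := by
      rw [map_inv₀]
      field_simp
    have h2 : algebraMap k F s * (y * (x ^ m)⁻¹) ∈ IntermediateField.adjoin k
        ({algebraMap k F c * x⁻¹, algebraMap k F s * (y * (x ^ m)⁻¹)} : Set F) :=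
        IntermediateField.subset_adjoin k _ (Set.mem_insert_of_mem _ (Set.mem_singleton _))
    have h3 := mul_mem (mul_mem (IntermediateField.algebraMap_mem (IntermediateField.adjoin k
        ({algebraMap k F c * x⁻¹, algebraMap k F s * (y * (x ^ m)⁻¹)} : Set F)) s⁻¹) h2) (pow_mem hxm m)
    rw [← h1] at h3
    exact h3

theorem QW8 (hW2 : QW2_stmt) (hW9 : QW9_stmt) : QW8_stmt := by
  intro k F _ _ _ _ g x y hg hn hH
  -- the number n
  have hncast : ((2 * (g + 1) : ℕ) : k) ≠ 0 := by
    push_cast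
    intro h
    apply hn
    rw [← h]
    ring
  have hnz : NeZero ((2 * (g + 1) : ℕ) : k) := ⟨hncast⟩
  have h2k : (2 : k) ≠ 0 := by
    intro h
    apply hn
    rw [show (2 * g + 2 : k) = 2 * (g + 1) by ring, h, zero_mul]
  have hn2 : 2 * g + 2 = 2 * (g + 1) := by ring
  rw [hn2] at hH
  obtain ⟨hsq, hdeg, -⟩ := (hW9 k).2 (2 * (g + 1)) (by omega) hncast
  obtain ⟨ζ, hζ⟩ := HasEnoughRootsOfUnity.exists_primitiveRoot k (2 * (g + 1))
  obtain ⟨i, hi⟩ : ∃ i : k, i ^ 2 = -1 := by
    obtain ⟨i, hi⟩ := IsAlgClosed.exists_pow_nat_eq (-1 : k) (n := 2) (by norm_num)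
    exact ⟨i, hi⟩
  have hi0 : i ≠ 0 := by
    rintro rfl
    have : (-1 : k) = 0 := by rw [← hi]; ring
    exact one_ne_zero (neg_eq_zero.1 this)
  have hζ0 : ζ ≠ 0 := hζ.ne_zero (by omega)
  have hζp : ∀ j : ℕ, (ζ ^ j) ^ (2 * (g + 1)) = 1 := by
    intro j
    rw [← pow_mul, mul_comm j, pow_mul, hζ.pow_eq_one, one_pow]
  have hx0 : x ≠ 0 := by
    rintro rfl
    exact hH.tr isAlgebraic_zero
  have hy0 : y ≠ 0 := by
    rintro rfl
    have h1 := hH.eq
    have hne : (Polynomial.X ^ (2 * (g + 1)) - 1 : Polynomial k) ≠ 0 := by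
      intro h
      rw [h, Polynomial.natDegree_zero] at hdeg
      omega
    exact hH.tr ⟨_, hne, by rw [← h1]; ring⟩
  let s : Bool → k := fun b => if b then 1 else -1
  have hs0 : ∀ b, s b ≠ 0 := by
    intro b
    cases b
    · show (-1 : k) ≠ 0
      exact neg_ne_zero.2 one_ne_zero
    · exact one_ne_zero
  have hs2 : ∀ b, s b ^ 2 = 1 := by
    intro b
    cases b
    · show (-1 : k) ^ 2 = 1
      ring
    · show (1 : k) ^ 2 = 1
      ring
  have hsinj : ∀ b b', s b = s b' → b = b' := by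
    have h11 : (-1 : k) ≠ 1 := by
      intro h
      apply h2k
      have : (2 : k) = 1 - (-1) := by ring
      rw [this, h, sub_self]
    intro b b' h
    cases b <;> cases b'
    · rfl
    · exact absurd h h11
    · exact absurd h.symm h11
    · rfl
  -- generators
  let X' : Fin (2 * (g + 1)) × Bool × Bool → F := fun t =>
    if t.2.2 then algebraMap k F (ζ ^ (t.1 : ℕ)) * x else algebraMap k F (ζ ^ (t.1 : ℕ)) * x⁻¹
  let Y' : Fin (2 * (g + 1)) × Bool × Bool → F := fun t =>
    if t.2.2 then algebraMap k F (s t.2.1) * y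
    else algebraMap k F (s t.2.1 * i) * (y * (x ^ (g + 1))⁻¹)
  have hHyp : ∀ t, Hyp k (X' t) (Y' t) (Polynomial.X ^ (2 * (g + 1)) - 1) := by
    rintro ⟨j, b, t⟩
    cases t
    · show Hyp k (algebraMap k F (ζ ^ (j : ℕ)) * x⁻¹)
        (algebraMap k F (s b * i) * (y * (x ^ (g + 1))⁻¹)) _
      refine QW8_two (g + 1) (by omega) hH _ _ (pow_ne_zero _ hζ0) (hζp j)
        (mul_ne_zero (hs0 b) hi0) ?_
      rw [mul_pow, hs2, hi, one_mul]
    · show Hyp k (algebraMap k F (ζ ^ (j : ℕ)) * x) (algebraMap k F (s b) * y) _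
      exact QW8_one _ hH _ _ (pow_ne_zero _ hζ0) (hζp j) (hs0 b) (hs2 b)
  choose σ hσ using fun t => hW2 k F _ x y (X' t) (Y' t) hsq (by omega) hH (hHyp t)
  have hxne : ∀ c d : k, c ≠ 0 → algebraMap k F c * x = algebraMap k F d * x⁻¹ → False := by
    intro c d hc h
    apply hH.tr
    have hc' : algebraMap k F c ≠ 0 := by simpa using hc
    refine ⟨Polynomial.C c * Polynomial.X ^ 2 - Polynomial.C d, ?_, ?_⟩
    · intro h0
      have h1 := congrArg (fun p => Polynomial.coeff p 2) h0
      simp at h1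
      exact hc h1
    · simp only [map_sub, map_mul, map_pow, Polynomial.aeval_X, Polynomial.aeval_C]
      have h2 : algebraMap k F c * x * x = algebraMap k F d := by
        rw [h, mul_assoc, inv_mul_cancel₀ hx0, mul_one]
      rw [← h2]
      ring
  have hinj : Function.Injective σ := by
    rintro ⟨j, b, t⟩ ⟨j', b', t'⟩ h
    have hX : X' (j, b, t) = X' (j', b', t') := by rw [← (hσ _).1, ← (hσ _).1, h]
    have hY : Y' (j, b, t) = Y' (j', b', t') := by rw [← (hσ _).2, ← (hσ _).2, h]
    cases t <;> cases t'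
    · have hX1 : algebraMap k F (ζ ^ (j : ℕ)) * x⁻¹ = algebraMap k F (ζ ^ (j' : ℕ)) * x⁻¹ := hX
      have hY1 : algebraMap k F (s b * i) * (y * (x ^ (g + 1))⁻¹) =
        algebraMap k F (s b' * i) * (y * (x ^ (g + 1))⁻¹) := hY
      have hX2 := (algebraMap k F).injective (mul_right_cancel₀ (inv_ne_zero hx0) hX1)
      have hY2 := (algebraMap k F).injective (mul_right_cancel₀
        (mul_ne_zero hy0 (inv_ne_zero (pow_ne_zero _ hx0))) hY1)
      have e1 := hζ.pow_inj j.2 j'.2 hX2
      have e2 := hsinj _ _ (mul_right_cancel₀ hi0 hY2)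
      rw [e2, Fin.ext e1]
    · exact (hxne _ _ (pow_ne_zero _ hζ0) (Eq.symm hX)).elim
    · exact (hxne _ _ (pow_ne_zero _ hζ0) hX).elim
    · have hX1 : algebraMap k F (ζ ^ (j : ℕ)) * x = algebraMap k F (ζ ^ (j' : ℕ)) * x := hX
      have hY1 : algebraMap k F (s b) * y = algebraMap k F (s b') * y := hY
      have hX2 := (algebraMap k F).injective (mul_right_cancel₀ hx0 hX1)
      have hY2 := (algebraMap k F).injective (mul_right_cancel₀ hy0 hY1)
      have e1 := hζ.pow_inj j.2 j'.2 hX2
      have e2 := hsinj _ _ hY2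
      rw [e2, Fin.ext e1]
  have hcard := ENat.card_le_card_of_injective hinj
  have h8 : ENat.card (Fin (2 * (g + 1)) × Bool × Bool) = ((8 * (g + 1) : ℕ) : ℕ∞) := by
    rw [ENat.card_eq_coe_fintype_card]
    congr 1
    simp only [Fintype.card_prod, Fintype.card_fin, Fintype.card_bool]
    ring
  rw [h8] at hcard
  refine le_trans ?_ hcard
  exact_mod_cast (by omega : 8 * g ≤ 8 * (g + 1))

end

end Pool.Agent.helper53.AU
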