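import Mathlib
import Pool.Agent.helper53.AU.SpecG1

/-!
# Project au, module LO (Lemma O)
-/

namespace Pool.Agent.helper53.AU

open scoped Classical

/-- action on the quotient by an invariant equivalence relation -/
@[reducible] def LO_quotAct {G Ω : Type} [Group G] [MulAction G Ω] (r : Setoid Ω)
    (h : ∀ (g : G) (a b : Ω), r a b → r (g • a) (g • b)) : MulAction G (Quotient r) where
  smul g := Quotient.map (fun a => g • a) (fun a b hab => h g a b hab)
  one_smul := by
    rintro ⟨a⟩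
    exact congrArg (Quotient.mk r) (one_smul G a)
  mul_smul := by
    rintro g g' ⟨a⟩
    exact congrArg (Quotient.mk r) (mul_smul g g' a)

/-- the induction statement -/
def LO_P (n : ℕ) : Prop := ∀ (L Ω : Type) [Group L] [MulAction L Ω] [FaithfulSMul L Ω] [Finite L]
  [Finite Ω] (X A : Subgroup L), Nat.card X + Nat.card Ω = n → A ≤ X → IsCyclic A →
  Odd (Nat.card X) →
  (∀ ω : Ω, ∀ x ∈ X, ∃ a ∈ A, x • ω = a • ω) → (∀ a ∈ A, ∀ ω : Ω, a • ω = ω → a = 1) →
  (∀ ω : Ω, Nat.Coprime (Nat.card {x : L // x ∈ X ∧ x • ω = ω}) (Nat.card A)) →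
  (∀ x ∈ X, ∀ a ∈ A, x * a * x⁻¹ ∈ A)

theorem LO_card {L Ω : Type} [Group L] [MulAction L Ω] (X : Subgroup L) (ω : Ω) :
    Nat.card {x : L // x ∈ X ∧ x • ω = ω} = Nat.card (X ⊓ MulAction.stabilizer L ω : Subgroup L) :=
  Nat.card_congr (Equiv.subtypeEquivRight fun x => by
    rw [Subgroup.mem_inf, MulAction.mem_stabilizer_iff])

theorem LO_card' {L Ω : Type} [Group L] [MulAction L Ω] (X : Subgroup L) (ω : Ω) :
    Nat.card (MulAction.stabilizer X ω) = Nat.card {x : L // x ∈ X ∧ x • ω = ω} :=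
  Nat.card_congr
    { toFun := fun s => ⟨s.1.1, s.1.2, s.2⟩
      invFun := fun s => ⟨⟨s.1, s.2.1⟩, s.2.2⟩
      left_inv := fun s => rfl
      right_inv := fun s => rfl }

theorem LO_comm {L : Type} [Group L] (A : Subgroup L) (hc : IsCyclic A) :
    ∀ a ∈ A, ∀ b ∈ A, a * b = b * a := by
  intro a ha b hb
  obtain ⟨g, hg⟩ := hc.exists_generator
  obtain ⟨i, hi⟩ := Subgroup.mem_zpowers_iff.mp (hg ⟨a, ha⟩)
  obtain ⟨j, hj⟩ := Subgroup.mem_zpowers_iff.mp (hg ⟨b, hb⟩)
  have h1 : (g : L) ^ i = a := by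
    have := congrArg Subtype.val hi
    simpa using this
  have h2 : (g : L) ^ j = b := by
    have := congrArg Subtype.val hj
    simpa using this
  rw [← h1, ← h2]
  exact ((Commute.refl (g : L)).zpow_zpow i j).eq

theorem LO_act {n : ℕ} (ih : ∀ m < n, LO_P m) {G Ω : Type} [Group G] [MulAction G Ω] [Finite G]
    [Finite Ω] (B : Subgroup G) (hn : Nat.card G + Nat.card Ω < n) (hc : IsCyclic B)
    (hodd : Odd (Nat.card G))
    (horb : ∀ ω : Ω, ∀ g : G, ∃ b ∈ B, g • ω = b • ω)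
    (hsr : ∀ b ∈ B, ∀ ω : Ω, b • ω = ω → ∀ ω' : Ω, b • ω' = ω')
    (hst : ∀ ω : Ω, ∃ S : Subgroup G, Nat.Coprime (Nat.card S) (Nat.card B) ∧
      ∀ g : G, g • ω = ω → ∃ s ∈ S, ∀ ω' : Ω, g • ω' = s • ω') :
    ∀ g : G, ∀ b ∈ B, ∃ b' ∈ B, ∀ ω : Ω, (g * b * g⁻¹) • ω = b' • ω := by
  intro g b hb
  let φ : G →* Equiv.Perm Ω := MulAction.toPermHom G Ω
  have hφ : ∀ (g : G) (ω : Ω), φ g • ω = g • ω := fun g ω => rfl
  have hlt : Nat.card φ.range + Nat.card Ω < n := by
    have : Nat.card φ.range ≤ Nat.card G :=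
      Nat.card_le_card_of_surjective φ.rangeRestrict φ.rangeRestrict_surjective
    omega
  have key := ih _ hlt (Equiv.Perm Ω) Ω φ.range (B.map φ) rfl ?_ ?_ ?_ ?_ ?_ ?_ (φ g) ⟨g, rfl⟩
    (φ b) ⟨b, hb, rfl⟩
  · obtain ⟨b', hb', hb''⟩ := key
    refine ⟨b', hb', fun ω => ?_⟩
    rw [← hφ, ← hφ, map_mul, map_mul, map_inv, hb'']
  · rw [MonoidHom.range_eq_map]
    exact Subgroup.map_mono le_top
  · exact isCyclic_of_surjective (φ.subgroupMap B) (φ.subgroupMap_surjective B)
  · exact hodd.of_dvd_nat (Subgroup.card_range_dvd φ)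
  · rintro ω _ ⟨x, rfl⟩
    obtain ⟨b, hb, h⟩ := horb ω x
    exact ⟨φ b, ⟨b, hb, rfl⟩, h⟩
  · rintro _ ⟨b, hb, rfl⟩ ω h
    apply Equiv.ext
    intro ω'
    exact hsr b hb ω h ω'
  · intro ω
    obtain ⟨S, hS, hS'⟩ := hst ω
    rw [LO_card]
    have h1 : (φ.range ⊓ MulAction.stabilizer (Equiv.Perm Ω) ω : Subgroup (Equiv.Perm Ω)) ≤
        S.map φ := by
      rintro _ ⟨⟨g, rfl⟩, hg⟩
      obtain ⟨s, hs, hs'⟩ := hS' g hg
      exact ⟨s, hs, Equiv.ext fun ω' => (hs' ω').symm⟩
    have h2 := Subgroup.card_dvd_of_le h1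
    have h3 : Nat.card (S.map φ) ∣ Nat.card S := Subgroup.card_map_dvd S φ
    have h4 : Nat.card (B.map φ) ∣ Nat.card B := Subgroup.card_map_dvd B φ
    exact Nat.Coprime.of_dvd (h2.trans h3) h4 hS

theorem LO_cent {L Ω : Type} [Group L] [MulAction L Ω] [FaithfulSMul L Ω] [Finite L]
    (X A : Subgroup L) (hAX : A ≤ X) (hc : IsCyclic A)
    (horb : ∀ ω : Ω, ∀ x ∈ X, ∃ a ∈ A, x • ω = a • ω)
    (hcop : ∀ ω : Ω, Nat.Coprime (Nat.card {x : L // x ∈ X ∧ x • ω = ω}) (Nat.card A)) :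
    ∀ x ∈ X, (∀ a ∈ A, x * a = a * x) → x ∈ A := by
  have hab := LO_comm A hc
  have h1 : ∀ x ∈ X, (∀ a ∈ A, x * a = a * x) → x ^ (Nat.card A) = 1 := by
    intro x hx hxa
    apply FaithfulSMul.eq_of_smul_eq_smul (α := Ω)
    intro ω
    obtain ⟨a, ha, h⟩ := horb ω x hx
    have h2 : ∀ k : ℕ, x ^ k • ω = a ^ k • ω := by
      intro k
      induction k with
      | zero => simp
      | succ k ih =>
        rw [pow_succ', mul_smul, ih, ← mul_smul, hxa _ (A.pow_mem ha k), mul_smul, h, ← mul_smul,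
          ← pow_succ]
    rw [h2]
    have h3 : (⟨a, ha⟩ : A) ^ Nat.card A = 1 := pow_card_eq_one'
    have h4 := congrArg Subtype.val h3
    have h5 : a ^ Nat.card A = 1 := h4
    rw [h5]
  intro x hx hxa
  rcases isEmpty_or_nonempty Ω with he | ⟨⟨ω⟩⟩
  · have : x = 1 := FaithfulSMul.eq_of_smul_eq_smul (α := Ω) fun ω => (he.false ω).elim
    rw [this]; exact A.one_mem
  obtain ⟨a, ha, h⟩ := horb ω x hx
  have hy : (a⁻¹ * x) ∈ X := X.mul_mem (X.inv_mem (hAX ha)) hx
  have hyc : ∀ b ∈ A, (a⁻¹ * x) * b = b * (a⁻¹ * x) := by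
    intro b hb
    rw [mul_assoc, hxa b hb, ← mul_assoc, hab _ (A.inv_mem ha) b hb, mul_assoc]
  have hy1 := h1 _ hy hyc
  have hy2 : (a⁻¹ * x) • ω = ω := by
    rw [mul_smul, h, ← mul_smul, inv_mul_cancel, one_smul]
  have hy3 : (a⁻¹ * x) ^ (Nat.card {x : L // x ∈ X ∧ x • ω = ω}) = 1 := by
    rw [LO_card]
    have hm : (a⁻¹ * x) ∈ (X ⊓ MulAction.stabilizer L ω : Subgroup L) := ⟨hy, hy2⟩
    have h3 : (⟨a⁻¹ * x, hm⟩ : (X ⊓ MulAction.stabilizer L ω : Subgroup L)) ^
      Nat.card (X ⊓ MulAction.stabilizer L ω : Subgroup L) = 1 := pow_card_eq_one'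
    have h4 := congrArg Subtype.val h3
    exact h4
  have h6 : orderOf (a⁻¹ * x) ∣ 1 := by
    rw [← (hcop ω)]
    exact Nat.dvd_gcd (orderOf_dvd_of_pow_eq_one hy3) (orderOf_dvd_of_pow_eq_one hy1)
  have h7 : a⁻¹ * x = 1 := orderOf_eq_one_iff.mp (Nat.dvd_one.mp h6)
  have h8 : x = a := by
    rw [inv_mul_eq_one] at h7
    exact h7.symm
  rw [h8]; exact ha

theorem LO_ind (hLP : LP_stmt) (hLI : LI_stmt) (hLB : LB_stmt) : ∀ n, LO_P n := by
  intro n
  induction n using Nat.strong_induction_on with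
  | _ n ih =>
  intro L Ω _ _ _ _ _ X A hn hAX hc hodd horb hsr hcop
  have hab := LO_comm A hc
  have hcyc' : IsCyclic (A.subgroupOf X) :=
    isCyclic_of_surjective (Subgroup.subgroupOfEquivOfLe hAX).symm
      (Subgroup.subgroupOfEquivOfLe hAX).symm.surjective
  have hcard' : Nat.card (A.subgroupOf X) = Nat.card A :=
    Nat.card_congr (Subgroup.subgroupOfEquivOfLe hAX).toEquiv
  by_cases htr : ∀ α β : Ω, ∃ x ∈ X, x • α = β
  · have hpre : MulAction.IsPretransitive X Ω :=
      ⟨fun α β => by obtain ⟨x, hx, h⟩ := htr α β; exact ⟨⟨x, hx⟩, h⟩⟩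
    have htrA : ∀ α β : Ω, ∃ a ∈ A, a • α = β := by
      intro α β
      obtain ⟨x, hx, h⟩ := htr α β
      obtain ⟨a, ha, h'⟩ := horb α x hx
      exact ⟨a, ha, by rw [← h', h]⟩
    have hreg : Regular Ω (A.subgroupOf X) := by
      intro α β
      obtain ⟨a, ha, h⟩ := htrA α β
      refine ⟨⟨⟨a, hAX ha⟩, ha⟩, h, ?_⟩
      rintro ⟨⟨b, hbX⟩, hb⟩ hb'
      have hbA : b ∈ A := hb
      have h1 : b • α = β := hb'
      have h2 : (a⁻¹ * b) • α = α := by
        rw [mul_smul, h1, ← h, ← mul_smul, inv_mul_cancel, one_smul]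
      have h3 := hsr _ (A.mul_mem (A.inv_mem ha) hbA) α h2
      have h4 : b = a := by
        rw [inv_mul_eq_one] at h3; exact h3.symm
      subst h4
      rfl
    by_cases hprim : Prim X Ω
    · have h := hLP X Ω (A.subgroupOf X) hpre hprim hodd hcyc' hreg
      intro x hx a ha
      exact h ⟨x, hx⟩ ⟨a, hAX ha⟩ ha
    · unfold Prim at hprim
      push Not at hprim
      obtain ⟨r, hinv, hbot, htop⟩ := hprim
      have hinvL : ∀ x ∈ X, ∀ a b : Ω, r a b → r (x • a) (x • b) := fun x hx a b h =>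
        hinv ⟨x, hx⟩ a b h
      -- elements of `A` preserving one class
      have hcl : ∀ a ∈ A, ∀ ω : Ω, r (a • ω) ω → ∀ ω' : Ω, r (a • ω') ω' := by
        intro a ha ω h ω'
        obtain ⟨c, hcA, rfl⟩ := htrA ω ω'
        have := hinvL c (hAX hcA) _ _ h
        rwa [← mul_smul, ← hab a ha c hcA, mul_smul] at this
      let Y : Subgroup L :=
        { carrier := {x | x ∈ X ∧ ∀ ω : Ω, r (x • ω) ω}
          mul_mem' := by
            rintro x y ⟨hx, hx'⟩ ⟨hy, hy'⟩
            refine ⟨X.mul_mem hx hy, fun ω => ?_⟩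
            rw [mul_smul]
            exact r.trans (hx' _) (hy' _)
          one_mem' := ⟨X.one_mem, fun ω => by rw [one_smul]⟩
          inv_mem' := by
            rintro x ⟨hx, hx'⟩
            refine ⟨X.inv_mem hx, fun ω => ?_⟩
            have := hx' (x⁻¹ • ω)
            rw [← mul_smul, mul_inv_cancel, one_smul] at this
            exact r.symm this }
      have hYX : Y ≤ X := fun x hx => hx.1
      have hYne : Y ≠ X := by
        intro h
        apply htop
        rw [eq_top_iff]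
        intro α β _
        obtain ⟨x, hx, h'⟩ := htr β α
        have : x ∈ Y := by rw [h]; exact hx
        have := this.2 β
        rwa [h'] at this
      have hYlt : Nat.card Y < Nat.card X := by
        have hle := Nat.le_of_dvd Nat.card_pos (Subgroup.card_dvd_of_le hYX)
        rcases lt_or_eq_of_le hle with h | h
        · exact h
        · exact (hYne (Subgroup.eq_of_le_of_card_ge hYX h.ge)).elim
      have horbY : ∀ ω : Ω, ∀ x ∈ Y, ∃ a ∈ A ⊓ Y, x • ω = a • ω := by
        intro ω x hx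
        obtain ⟨a, ha, h⟩ := horb ω x hx.1
        refine ⟨a, ⟨ha, hAX ha, ?_⟩, h⟩
        apply hcl a ha ω
        rw [← h]
        exact hx.2 ω
      have hcycY : IsCyclic (A ⊓ Y : Subgroup L) :=
        isCyclic_of_injective (Subgroup.inclusion (inf_le_left : A ⊓ Y ≤ A))
          (Subgroup.inclusion_injective _)
      have hcopY : ∀ ω : Ω, Nat.Coprime (Nat.card {x : L // x ∈ Y ∧ x • ω = ω})
          (Nat.card (A ⊓ Y : Subgroup L)) := by
        intro ω
        have h1 := hcop ω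
        rw [LO_card] at h1 ⊢
        exact Nat.Coprime.of_dvd (Subgroup.card_dvd_of_le (inf_le_inf_right _ hYX))
          (Subgroup.card_dvd_of_le inf_le_left) h1
      have hYn := ih _ (by omega : Nat.card Y + Nat.card Ω < n) L Ω Y (A ⊓ Y) rfl inf_le_right
        hcycY (hodd.of_dvd_nat (Subgroup.card_dvd_of_le hYX)) horbY
        (fun a ha ω h => hsr a ha.1 ω h) hcopY
      have hYc := LO_cent Y (A ⊓ Y) inf_le_right hcycY horbY hcopY
      -- the quotient
      have hQ : ∀ g : X, ∀ a ∈ A.subgroupOf X, ∃ a' ∈ A.subgroupOf X,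
          ∀ ω : Ω, r ((g * a * g⁻¹) • ω) (a' • ω) := by
        letI : MulAction X (Quotient r) := LO_quotAct r hinv
        have hmk : ∀ (g : X) (ω : Ω), g • (Quotient.mk r ω) = Quotient.mk r (g • ω) :=
          fun g ω => rfl
        have hcardQ : Nat.card (Quotient r) < Nat.card Ω := by
          by_contra hge
          push Not at hge
          apply hbot
          have hsurj : Function.Surjective (Quotient.mk r) := Quotient.mk_surjective
          have hbij : Function.Bijective (Quotient.mk r) := by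
            rw [Nat.bijective_iff_surjective_and_card]
            exact ⟨hsurj, le_antisymm hge (Nat.card_le_card_of_surjective _ hsurj)⟩
          rw [eq_bot_iff]
          intro α β h
          exact hbij.1 (Quotient.sound h)
        have h := LO_act (n := n) ih (G := X) (Ω := Quotient r) (A.subgroupOf X) (by omega) hcyc'
          hodd ?_ ?_ ?_
        · intro g a ha
          obtain ⟨a', ha', h'⟩ := h g a ha
          refine ⟨a', ha', fun ω => ?_⟩
          have := h' (Quotient.mk r ω)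
          rw [hmk, hmk] at this
          exact Quotient.exact this
        · rintro ⟨ω⟩ g
          obtain ⟨a, ha, h⟩ := horb ω g.1 g.2
          exact ⟨⟨a, hAX ha⟩, ha, congrArg (Quotient.mk r) h⟩
        · rintro b hb ⟨ω⟩ h ⟨ω'⟩
          apply Quotient.sound
          exact hcl b.1 hb ω (Quotient.exact h) ω'
        · rintro ⟨ω⟩
          refine ⟨MulAction.stabilizer X ω, ?_, ?_⟩
          · rw [hcard', LO_card']
            exact hcop ω
          · intro g hg
            have hg' : r (g • ω) ω := Quotient.exact hg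
            obtain ⟨a, ha, h⟩ := horb ω g.1 g.2
            have h' : r (a • ω) ω := by
              rw [← h]; exact hg'
            have ha2 := hcl a ha ω h'
            refine ⟨⟨a, hAX ha⟩⁻¹ * g, ?_, ?_⟩
            · rw [MulAction.mem_stabilizer_iff, mul_smul]
              have e : g • ω = (⟨a, hAX ha⟩ : X) • ω := h
              rw [e, inv_smul_smul]
            · rintro ⟨ω'⟩
              apply Quotient.sound
              have h3 := ha2 ((⟨a, hAX ha⟩⁻¹ * g : X) • ω')
              have e : a • ((⟨a, hAX ha⟩⁻¹ * g : X) • ω') = g • ω' := by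
                have : a • ((⟨a, hAX ha⟩⁻¹ * g : X) • ω') =
                    (⟨a, hAX ha⟩ : X) • ((⟨a, hAX ha⟩⁻¹ * g : X) • ω') := rfl
                rw [this, mul_smul, smul_inv_smul]
              rw [e] at h3
              exact h3
      have h := hLB X Ω (A.subgroupOf X) r hcyc' hreg
        (fun ω => by rw [hcard', LO_card']; exact hcop ω) hinv hQ
        (by
          intro y hy a ha hay
          have h1 := hYn y.1 ⟨y.2, hy⟩ a.1 ⟨ha, a.2, hay⟩
          exact h1.1)
        (by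
          intro y hy hya
          have h1 := hYc y.1 ⟨y.2, hy⟩ (by
            intro a ha
            have := hya ⟨a, hAX ha.1⟩ ha.1 ha.2.2
            exact congrArg Subtype.val this)
          exact h1.1)
      intro x hx a ha
      exact h ⟨x, hx⟩ ⟨a, hAX ha⟩ ha
  · push Not at htr
    obtain ⟨α, β, hαβ⟩ := htr
    have hno : ∀ ω : Ω, ∃ ω', ω' ∉ MulAction.orbit X ω := by
      intro ω
      by_contra hcon
      push Not at hcon
      obtain ⟨x, hx⟩ := hcon α
      obtain ⟨y, hy⟩ := hcon β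
      apply hαβ (y.1 * x.1⁻¹) (X.mul_mem y.2 (X.inv_mem x.2))
      have hx' : x.1 • ω = α := hx
      have hy' : y.1 • ω = β := hy
      rw [mul_smul, ← hx', inv_smul_smul, hy']
    apply hLI L Ω X A hAX hab horb hsr hcop
    intro ω x hx a ha
    obtain ⟨ω', hω'⟩ := hno ω
    have hlt : Nat.card (MulAction.orbit X ω) < Nat.card Ω :=
      Finite.card_subtype_lt hω'
    have h := LO_act (n := n) ih (G := X) (Ω := MulAction.orbit X ω) (A.subgroupOf X) (by omega)
      hcyc' hodd ?_ ?_ ?_ ⟨x, hx⟩ ⟨a, hAX ha⟩ ha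
    · obtain ⟨a', ha', h'⟩ := h
      refine ⟨a'.1, ha', fun y hy => ?_⟩
      have h1 := h' ⟨y • ω, ⟨⟨y, hy⟩, rfl⟩⟩
      exact congrArg Subtype.val h1
    · rintro ⟨ω1, hω1⟩ g
      obtain ⟨b, hb, hb'⟩ := horb ω1 g.1 g.2
      exact ⟨⟨b, hAX hb⟩, hb, Subtype.ext hb'⟩
    · rintro b hb ⟨ω1, hω1⟩ h1 ⟨ω2, hω2⟩
      have h2 : b.1 • ω1 = ω1 := congrArg Subtype.val h1
      have h3 : b.1 = 1 := hsr b.1 hb ω1 h2
      have h4 : b = 1 := Subtype.ext h3
      rw [h4, one_smul]
    · rintro ⟨ω1, hω1⟩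
      refine ⟨MulAction.stabilizer X ω1, ?_, ?_⟩
      · rw [hcard', LO_card']
        exact hcop ω1
      · intro g hg
        exact ⟨g, congrArg Subtype.val hg, fun _ => rfl⟩

theorem LO (hLP : LP_stmt) (hLI : LI_stmt) (hLB : LB_stmt) : LO_stmt := by
  intro L Ω _ _ _ _ _ X A hAX hc hodd horb hsr hcop
  exact ⟨LO_ind hLP hLI hLB _ L Ω X A rfl hAX hc hodd horb hsr hcop,
    LO_cent X A hAX hc horb hcop⟩

end Pool.Agent.helper53.AU
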