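import Mathlib
import Pool.Agent.helper53.AU.SpecG2

/-!
# Project au, module P6
-/

namespace Pool.Agent.helper53.AU

open scoped Classical

theorem P6_dbl {H : Type} [Group H] [Finite H] (C : Subgroup H) (t : H) (ht : t * t = 1)
    (htC : t ∉ C) (hn : ∀ c ∈ C, t * c * t⁻¹ ∈ C) :
    (∀ g : H, g ∈ C ⊔ Subgroup.zpowers t ↔ g ∈ C ∨ g * t ∈ C) ∧
    Nat.card (C ⊔ Subgroup.zpowers t : Subgroup H) = 2 * Nat.card C := by
  have hti : t⁻¹ = t := by
    rw [inv_eq_iff_mul_eq_one]; exact ht
  have hn' : ∀ c ∈ C, t * c * t ∈ C := by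
    intro c hc
    have := hn c hc
    rwa [hti] at this
  let D : Subgroup H :=
    { carrier := {g | g ∈ C ∨ g * t ∈ C}
      mul_mem' := by
        rintro x y hx hy
        rcases hx with hx | hx <;> rcases hy with hy | hy
        · exact Or.inl (C.mul_mem hx hy)
        · right
          show x * y * t ∈ C
          rw [mul_assoc]; exact C.mul_mem hx hy
        · right
          show x * y * t ∈ C
          have h1 := C.mul_mem hx (hn' y hy)
          have e : x * t * (t * y * t) = x * (t * t) * y * t := by group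
          rw [e, ht, mul_one] at h1
          exact h1
        · left
          show x * y ∈ C
          have h1 := C.mul_mem hx (hn' _ hy)
          have e : x * t * (t * (y * t) * t) = x * (t * t) * y * (t * t) := by group
          rw [e, ht, mul_one, mul_one] at h1
          exact h1
      one_mem' := Or.inl C.one_mem
      inv_mem' := by
        rintro x hx
        rcases hx with hx | hx
        · exact Or.inl (C.inv_mem hx)
        · right
          show x⁻¹ * t ∈ C
          have h1 := hn' _ (C.inv_mem hx)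
          have e : t * (x * t)⁻¹ * t = t * t⁻¹ * x⁻¹ * t := by group
          rw [e, mul_inv_cancel, one_mul] at h1
          exact h1 }
  have hD : ∀ g, g ∈ D ↔ g ∈ C ∨ g * t ∈ C := fun g => Iff.rfl
  have hle : C ⊔ Subgroup.zpowers t = D := by
    apply le_antisymm
    · refine sup_le (fun c hc => Or.inl hc) ?_
      rw [Subgroup.zpowers_le]
      right
      show t * t ∈ C
      rw [ht]; exact C.one_mem
    · intro g hg
      rcases hg with hg | hg
      · exact (le_sup_left : C ≤ C ⊔ Subgroup.zpowers t) hg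
      · have h1 : g * t ∈ C ⊔ Subgroup.zpowers t := (le_sup_left : C ≤ C ⊔ Subgroup.zpowers t) hg
        have h2 : t ∈ C ⊔ Subgroup.zpowers t :=
          (le_sup_right : Subgroup.zpowers t ≤ C ⊔ Subgroup.zpowers t) (Subgroup.mem_zpowers t)
        have h3 := mul_mem h1 h2
        rwa [mul_assoc, ht, mul_one] at h3
  refine ⟨fun g => by rw [hle]; exact hD g, ?_⟩
  rw [hle]
  have hf2 : ∀ c : C, (c : H) * t ∈ D := by
    intro c
    right
    show (c : H) * t * t ∈ C
    rw [mul_assoc, ht, mul_one]; exact c.2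
  let f : C ⊕ C → D := fun x => match x with
    | Sum.inl c => ⟨c.1, Or.inl c.2⟩
    | Sum.inr c => ⟨c.1 * t, hf2 c⟩
  have hf : Function.Bijective f := by
    constructor
    · rintro (a | a) (b | b) h
      · have h' : (f (Sum.inl a)).1 = (f (Sum.inl b)).1 := by rw [h]
        have h1 : a.1 = b.1 := h'
        rw [Subtype.ext h1]
      · exfalso
        have h' : (f (Sum.inl a)).1 = (f (Sum.inr b)).1 := by rw [h]
        have h1 : a.1 = b.1 * t := h'
        apply htC
        have h2 : t = b.1⁻¹ * a.1 := by rw [h1]; group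
        rw [h2]; exact C.mul_mem (C.inv_mem b.2) a.2
      · exfalso
        have h' : (f (Sum.inr a)).1 = (f (Sum.inl b)).1 := by rw [h]
        have h1 : a.1 * t = b.1 := h'
        apply htC
        have h2 : t = a.1⁻¹ * b.1 := by rw [← h1]; group
        rw [h2]; exact C.mul_mem (C.inv_mem a.2) b.2
      · have h' : (f (Sum.inr a)).1 = (f (Sum.inr b)).1 := by rw [h]
        have h1 : a.1 * t = b.1 * t := h'
        have h2 : a.1 = b.1 := mul_right_cancel h1
        rw [Subtype.ext h2]
    · rintro ⟨x, hx | hx⟩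
      · exact ⟨Sum.inl ⟨x, hx⟩, rfl⟩
      · refine ⟨Sum.inr ⟨x * t, hx⟩, Subtype.ext ?_⟩
        show x * t * t = x
        rw [mul_assoc, ht, mul_one]
  rw [← Nat.card_congr (Equiv.ofBijective f hf), Nat.card_sum]
  ring

theorem P6 (hP4 : P4_stmt) (hP5 : P5_stmt) (hAB : AB_stmt) (hCM : CM_stmt) (hDC : DC_stmt) :
    P6_stmt := by
  intro L Ω _ _ A hPL τ t hτA hτ hw
  haveI := hPL.finL
  haveI := hPL.finΩ
  obtain ⟨hodd, htwo, hcard, hoddc, ⟨n, hn⟩, hoc, htc, hdec, -, -⟩ := hAB L A hPL.cyc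
  obtain ⟨h51, h52, -⟩ := hP5 L Ω A hPL τ hτA hτ
  obtain ⟨htt, htA, htinv⟩ := hw
  have hτ2 : ∃ k : ℕ, τ ^ (2 ^ k) = 1 := ⟨1, by rw [pow_one, pow_two]; exact hτ.1⟩
  have hτinv : τ⁻¹ = τ := by rw [inv_eq_iff_mul_eq_one]; exact hτ.1
  -- (1)
  have h1 : t * τ = τ * t := by
    have := htinv τ hτA hτ2
    rw [hτinv] at this
    have h2 : t * τ * t⁻¹ * t = τ * t := by rw [this]
    simpa using h2
  -- (2)
  have hle_odd : ∀ a ∈ oddPart A, a ∈ A := fun a ha => ((hodd a).mp ha).1
  have hle_two : ∀ a ∈ twoPart A, a ∈ A := fun a ha => ((htwo a).mp ha).1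
  have htinv' : ∀ c ∈ twoPart A, t * c * t⁻¹ = c⁻¹ := fun c hc =>
    htinv c ((htwo c).mp hc).1 ((htwo c).mp hc).2
  have h2 : ∀ a ∈ A, t * a * t⁻¹ ∈ A := by
    intro a ha
    obtain ⟨b, hb, c, hc, rfl⟩ := hdec a ha
    have e : t * (b * c) * t⁻¹ = (t * b * t⁻¹) * (t * c * t⁻¹) := by group
    rw [e, htinv' c hc]
    exact A.mul_mem (hle_odd _ (h51 t h1 b hb)) (A.inv_mem (hle_two c hc))
  obtain ⟨h3, hcardD⟩ := P6_dbl A t htt htA h2
  refine ⟨h1, h2, h3, ?_, ?_⟩
  · -- regular
    have hfree : ∀ α : Ω, ∀ d ∈ A ⊔ Subgroup.zpowers t, d • α = α → d = 1 := by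
      intro α d hd hdα
      have hcop := hPL.copr α
      have e1 : orderOf d ∣ Nat.card (A ⊔ Subgroup.zpowers t : Subgroup L) :=
        Subgroup.orderOf_dvd_natCard _ hd
      rw [hcardD, hPL.cardA] at e1
      have e2 : orderOf d ∣ Nat.card (MulAction.stabilizer L α) :=
        Subgroup.orderOf_dvd_natCard _ (by rw [MulAction.mem_stabilizer_iff]; exact hdα)
      have e3 : orderOf d ∣ 1 := by
        rw [← hcop]; exact Nat.dvd_gcd e2 e1
      exact orderOf_eq_one_iff.mp (Nat.dvd_one.mp e3)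
    intro α β
    have hinj : Function.Injective
        (fun d : (A ⊔ Subgroup.zpowers t : Subgroup L) => (d : L) • α) := by
      intro d d' h
      have h' : (d : L) • α = (d' : L) • α := h
      have h4 : ((d' : L)⁻¹ * d) • α = α := by
        rw [mul_smul, h', inv_smul_smul]
      have h5 := hfree α _ (mul_mem (inv_mem d'.2) d.2) h4
      apply Subtype.ext
      rw [inv_mul_eq_one] at h5
      exact h5.symm
    have hbij : Function.Bijective
        (fun d : (A ⊔ Subgroup.zpowers t : Subgroup L) => (d : L) • α) := by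
      rw [Nat.bijective_iff_injective_and_card]
      exact ⟨hinj, by rw [hcardD, hPL.cardA]⟩
    obtain ⟨d, hd⟩ := hbij.2 β
    exact ⟨d, hd, fun d' hd' => hinj (by rw [hd]; exact hd')⟩
  · -- normalised by the centraliser of τ
    obtain ⟨ν, hν, -, hν2, -, -⟩ := hP4 L Ω A hPL
    set Z := Subgroup.centralizer ({τ} : Set L) with hZ
    have hmem : ∀ g : L, g ∈ Z ↔ g * τ = τ * g := fun g =>
      Subgroup.mem_centralizer_singleton_iff
    have hcardZ : Nat.card Z = 2 * Nat.card (twoPart A) * (ν * Nat.card (oddPart A)) := by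
      have e1 : Nat.card Z = Nat.card {g : L // g * τ = τ * g} :=
        Nat.card_congr (Equiv.subtypeEquivRight hmem)
      rw [e1, hν2 τ hτ, ← hPL.cardA, ← hcard]
      ring
    have hab : ∀ a ∈ A, a * τ = τ * a := by
      intro a ha
      obtain ⟨g, hg⟩ := hPL.cyc.exists_generator
      obtain ⟨i, hi⟩ := Subgroup.mem_zpowers_iff.mp (hg ⟨a, ha⟩)
      obtain ⟨j, hj⟩ := Subgroup.mem_zpowers_iff.mp (hg ⟨τ, hτA⟩)
      have e1 : (g : L) ^ i = a := congrArg Subtype.val hi
      have e2 : (g : L) ^ j = τ := congrArg Subtype.val hj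
      rw [← e1, ← e2]
      exact ((Commute.refl (g : L)).zpow_zpow i j).eq
    have htwoZ : twoPart A ≤ Z := fun c hc => (hmem c).mpr (hab c (hle_two c hc))
    set C : Subgroup Z := (twoPart A).subgroupOf Z with hC
    have hcardC : Nat.card C = Nat.card (twoPart A) :=
      Nat.card_congr (Subgroup.subgroupOfEquivOfLe htwoZ).toEquiv
    have hCc : IsCyclic C :=
      isCyclic_of_surjective (Subgroup.subgroupOfEquivOfLe htwoZ).symm
        (Subgroup.subgroupOfEquivOfLe htwoZ).symm.surjective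
    have htZ : t ∈ Z := (hmem t).mpr h1
    have hτZ : τ ∈ Z := (hmem τ).mpr rfl
    set t' : Z := ⟨t, htZ⟩ with ht'
    have htt' : t' * t' = 1 := Subtype.ext htt
    have htC' : t' ∉ C := fun h => htA (hle_two t h)
    have hinvC : ∀ c ∈ C, t' * c * t'⁻¹ = c⁻¹ := fun c hc => Subtype.ext (htinv' c.1 hc)
    obtain ⟨U, hUn, hUo, hUi⟩ := hDC Z C t' ⟨τ, hτZ⟩ (ν * Nat.card (oddPart A)) n hCc
      (by rw [hcardC, hn]) ((htwo τ).mpr ⟨hτA, hτ2⟩)
      ⟨Subtype.ext hτ.1, fun h => hτ.2 (congrArg Subtype.val h)⟩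
      (fun h => Subtype.ext ((hmem h.1).mp h.2)) htt' htC' hinvC
      (by rw [hcardC, hcardZ]) (hν.mul hoddc)
    obtain ⟨hSm, hScard⟩ := P6_dbl C t' htt' htC' (fun c hc => by
      rw [hinvC c hc]; exact C.inv_mem hc)
    have hcompl : Subgroup.IsComplement' U (C ⊔ Subgroup.zpowers t') := by
      apply Subgroup.isComplement'_of_coprime
      · rw [hScard, ← hUi, mul_comm]
        exact U.index_mul_card
      · rw [hScard, hcardC, hn, ← pow_succ']
        exact Nat.Coprime.pow_right _ (Nat.coprime_two_right.mpr hUo)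
    -- elements of `S` in `L`
    have hSD : ∀ s ∈ C ⊔ Subgroup.zpowers t', (s : L) ∈ A ⊔ Subgroup.zpowers t := by
      intro s hs
      rw [h3]
      rcases (hSm s).mp hs with h | h
      · exact Or.inl (hle_two _ h)
      · exact Or.inr (hle_two _ h)
    -- elements of `U` normalise `D`
    have hU : ∀ u ∈ U, ∀ d ∈ A ⊔ Subgroup.zpowers t,
        (u : L) * d * (u : L)⁻¹ ∈ A ⊔ Subgroup.zpowers t := by
      intro u hu d hd
      have hcore : ∀ b ∈ oddPart A, ∀ s ∈ C ⊔ Subgroup.zpowers t',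
          (u : L) * (b * (s : L)) * (u : L)⁻¹ ∈ A ⊔ Subgroup.zpowers t := by
        intro b hb s hs
        have e : (u : L) * (b * (s : L)) * (u : L)⁻¹ =
            ((u : L) * b * (u : L)⁻¹) * (((u : L) * s * (u : L)⁻¹ * (s : L)⁻¹) * s) := by group
        have huZ : (u : L) * τ = τ * u := (hmem _).mp u.2
        have hsZ : (s : L) * τ = τ * s := (hmem _).mp s.2
        have c1 : (u : L) * s * (u : L)⁻¹ * (s : L)⁻¹ ∈ oddPart A := by
          have hcU : u * s * u⁻¹ * s⁻¹ ∈ U := by
            have h6 := hUn.conj_mem _ (U.inv_mem hu) s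
            have h7 := U.mul_mem hu h6
            have e2 : u * (s * u⁻¹ * s⁻¹) = u * s * u⁻¹ * s⁻¹ := by group
            rwa [e2] at h7
          apply h52
          · exact (hmem _).mp (u * s * u⁻¹ * s⁻¹).2
          · have h8 : orderOf (u * s * u⁻¹ * s⁻¹) ∣ Nat.card U :=
              Subgroup.orderOf_dvd_natCard U hcU
            have h9 : orderOf ((u : L) * s * (u : L)⁻¹ * (s : L)⁻¹) =
                orderOf (u * s * u⁻¹ * s⁻¹) := by
              rw [← Subgroup.orderOf_coe]
              rfl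
            rw [h9]
            exact hUo.of_dvd_nat h8
          · intro a ha
            exact hCM L (oddPart A) hoc (u : L) (s : L) (h51 _ huZ) (h51 _ hsZ) a ha
        rw [e]
        refine mul_mem ?_ (mul_mem ?_ (hSD s hs))
        · exact (le_sup_left : A ≤ A ⊔ Subgroup.zpowers t) (hle_odd _ (h51 _ huZ b hb))
        · exact (le_sup_left : A ≤ A ⊔ Subgroup.zpowers t) (hle_odd _ c1)
      rcases (h3 d).mp hd with h | h
      · obtain ⟨b, hb, c, hc, rfl⟩ := hdec d h
        exact hcore b hb ⟨c, htwoZ hc⟩ ((hSm _).mpr (Or.inl hc))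
      · obtain ⟨b, hb, c, hc, hbc⟩ := hdec _ h
        have e : d = b * (c * t) := by
          rw [← mul_assoc, ← hbc, mul_assoc, htt, mul_one]
        rw [e]
        have hs : (⟨c, htwoZ hc⟩ * t' : Z) ∈ C ⊔ Subgroup.zpowers t' := by
          rw [hSm]
          right
          rw [mul_assoc, htt', mul_one]
          exact hc
        exact hcore b hb (⟨c, htwoZ hc⟩ * t') hs
    intro g hg d hd
    obtain ⟨⟨u, s⟩, hus⟩ := hcompl.2 ⟨g, (hmem g).mpr hg⟩
    have hus' : (u.1 : L) * (s.1 : L) = g := congrArg Subtype.val hus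
    rw [← hus']
    have e : (u.1 : L) * (s.1 : L) * d * ((u.1 : L) * (s.1 : L))⁻¹ =
        (u.1 : L) * ((s.1 : L) * d * (s.1 : L)⁻¹) * (u.1 : L)⁻¹ := by group
    rw [e]
    apply hU u.1 u.2
    have hs := hSD s.1 s.2
    exact mul_mem (mul_mem hs hd) (inv_mem hs)

end Pool.Agent.helper53.AU
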