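import Pool.Agent.helper75.AU.SpecR

/-!
# Project au (MP_97532f_ag): W1
-/

set_option linter.unusedVariables false

namespace Pool.Agent.helper75.AU

open scoped Classical
open Pool.Agent.helper53.AU MulAction

noncomputable section

/-- `|Λ S| = |Λ| |S|` for `Λ` normal of prime order `l ≠ 3` and a 3-group `S` -/
theorem W1_card {G : Type} [Group G] [Fintype G] (Lam S : Subgroup G) (l : ℕ) (hl : l.Prime) (h3 : l ≠ 3)
    (hN : Lam.Normal) (hc : Nat.card Lam = l) (hS : IsPGroup 3 S) :
    Nat.card (Lam ⊔ S : Subgroup G) = l * Nat.card S := by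
  haveI : Fact (Nat.Prime 3) := ⟨Nat.prime_three⟩
  have h1 : Lam.relIndex (Lam ⊔ S) = Lam.relIndex S := Subgroup.relIndex_sup_left _ _
  have h2 : Lam ⊓ S = ⊥ := by
    have hcop : Nat.Coprime (Nat.card Lam) (Nat.card S) := by
      obtain ⟨n, hn⟩ := IsPGroup.iff_card.1 hS
      rw [hc, hn]
      exact (Nat.coprime_primes hl Nat.prime_three).2 h3 |>.pow_right n
    exact disjoint_iff.1 (Subgroup.disjoint_of_coprime_natCard hcop)
  have h3' : Lam.relIndex S = Nat.card S := by
    rw [← Subgroup.inf_relIndex_right, h2, Subgroup.relIndex_bot_left]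
  have h4 := Subgroup.relIndex_mul_relIndex (⊥ : Subgroup G) Lam (Lam ⊔ S) bot_le le_sup_left
  rw [Subgroup.relIndex_bot_left, Subgroup.relIndex_bot_left, hc, h1, h3'] at h4
  exact h4.symm

/-- the stabiliser in a subgroup -/
theorem W1_stabcard {G X : Type} [Group G] [MulAction G X] (K : Subgroup G) (x : X) :
    Nat.card (stabilizer K x) = Nat.card (K ⊓ stabilizer G x : Subgroup G) := by
  have h : (stabilizer K x).map K.subtype = K ⊓ stabilizer G x := by
    ext a
    constructor
    · rintro ⟨b, hb, rfl⟩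
      exact ⟨b.2, hb⟩
    · rintro ⟨h1, h2⟩
      exact ⟨⟨a, h1⟩, h2, rfl⟩
  rw [← h]
  exact (Subgroup.card_map_of_injective K.subtype_injective).symm

theorem W1_orb {G X : Type} [Group G] [Fintype G] [MulAction G X] [Fintype X] (hBA4 : BA4_stmt)
    (K : Subgroup G) (x : X) :
    Nat.card (orbit K x) * Nat.card (K ⊓ stabilizer G x : Subgroup G) = Nat.card K := by
  have h := (hBA4 K X).1 x
  rw [W1_stabcard] at h
  exact h

/-- `Λ` acts freely -/
theorem W1_free {G X : Type} [Group G] [Fintype G] [MulAction G X] [Fintype X] (hBA4 : BA4_stmt)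
    (Lam : Subgroup G) (l : ℕ) (hl : l.Prime) (hc : Nat.card Lam = l)
    (hst : ∀ x : X, ¬ l ∣ Nat.card (stabilizer G x)) (x : X) : Nat.card (orbit Lam x) = l := by
  have h1 := W1_orb hBA4 Lam x
  have h2 : Nat.card (Lam ⊓ stabilizer G x : Subgroup G) ∣ Nat.card (stabilizer G x) :=
    Subgroup.card_dvd_of_le inf_le_right
  have h3 : Nat.card (Lam ⊓ stabilizer G x : Subgroup G) ∣ l := by
    rw [← hc]; exact Subgroup.card_dvd_of_le inf_le_left
  rcases (Nat.dvd_prime hl).1 h3 with h | h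
  · rw [h, mul_one] at h1
    rw [h1, hc]
  · exact absurd (h ▸ h2) (hst x)

/-- counting -/
theorem W1_sum {G X : Type} [Group G] [Fintype G] [MulAction G X] [Fintype X] (Lam : Subgroup G)
    (l n : ℕ) (hl : 0 < l) (horb : ∀ x : X, Nat.card (orbit Lam x) = l) (f : X → ℕ)
    (hf : ∀ a ∈ Lam, ∀ x : X, f (a • x) = f x) (h4 : ∀ x, f x ≠ 0 → 4 ≤ f x ∧ f x ≠ n)
    (hsum : ∑ x, f x = l * n) (hn0 : n ≠ 0) (hn : n ≤ 8) :
    n = 8 ∧ (∀ x, f x ≠ 0 → f x = 4) ∧ (Finset.univ.filter (fun x : X => f x ≠ 0)).card = 2 * l := by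
  -- the orbits as finsets
  let O : X → Finset X := fun x => Finset.univ.filter (fun y => y ∈ orbit Lam x)
  have hOmem : ∀ x y, y ∈ O x ↔ y ∈ orbit Lam x := fun x y => by simp [O]
  have hOcard : ∀ x, (O x).card = l := by
    intro x
    rw [← horb x, Nat.card_eq_fintype_card, ← Set.toFinset_card]
    congr 1
    ext y
    simp [O]
  have hOf : ∀ x, ∀ y ∈ O x, f y = f x := by
    intro x y hy
    rw [hOmem] at hy
    obtain ⟨a, rfl⟩ := hy
    exact hf a a.2 x
  have hOsum : ∀ x, ∑ y ∈ O x, f y = l * f x := by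
    intro x
    rw [Finset.sum_congr rfl (hOf x), Finset.sum_const, hOcard, smul_eq_mul]
  have hdisj : ∀ x y, y ∉ O x → Disjoint (O x) (O y) := by
    intro x y hy
    rw [Finset.disjoint_left]
    intro w hw1 hw2
    rw [hOmem] at hw1 hw2 hy
    exact hy (by rw [← MulAction.orbit_eq_iff.2 hw1, MulAction.orbit_eq_iff.2 hw2]; exact mem_orbit_self y)
  have hself : ∀ x, x ∈ O x := fun x => by rw [hOmem]; exact mem_orbit_self x
  -- first point
  obtain ⟨x1, hx1⟩ : ∃ x1, f x1 ≠ 0 := by
    by_contra h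
    push Not at h
    have : ∑ x, f x = 0 := Finset.sum_eq_zero (fun x _ => h x)
    rw [hsum] at this
    exact absurd this (by positivity)
  obtain ⟨x2, hx2, hx12⟩ : ∃ x2, f x2 ≠ 0 ∧ x2 ∉ O x1 := by
    by_contra h
    push Not at h
    have : ∑ x, f x = ∑ x ∈ O x1, f x := by
      symm
      apply Finset.sum_subset (Finset.subset_univ _)
      intro x _ hx
      by_contra hne
      exact hx (h x hne)
    rw [hsum, hOsum] at this
    exact (h4 x1 hx1).2 (Nat.eq_of_mul_eq_mul_left hl this).symm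
  have hd12 := hdisj x1 x2 hx12
  have hcov : ∀ x, f x ≠ 0 → x ∈ O x1 ∪ O x2 := by
    intro x3 hx3
    by_contra hx
    rw [Finset.mem_union, not_or] at hx
    have hd : Disjoint (O x1 ∪ O x2) (O x3) :=
      Finset.disjoint_union_left.2 ⟨hdisj x1 x3 hx.1, hdisj x2 x3 hx.2⟩
    have h1 : ∑ x ∈ (O x1 ∪ O x2) ∪ O x3, f x ≤ ∑ x, f x :=
      Finset.sum_le_sum_of_subset (Finset.subset_univ _)
    rw [Finset.sum_union hd, Finset.sum_union hd12, hOsum, hOsum, hOsum, hsum] at h1
    have h2 : l * 12 ≤ l * 8 := by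
      calc l * 12 ≤ l * (f x1 + f x2 + f x3) :=
            Nat.mul_le_mul_left _ (by
              have := (h4 x1 hx1).1
              have := (h4 x2 hx2).1
              have := (h4 x3 hx3).1
              omega)
        _ = l * f x1 + l * f x2 + l * f x3 := by ring
        _ ≤ l * n := h1
        _ ≤ l * 8 := Nat.mul_le_mul_left _ hn
    have := Nat.le_of_mul_le_mul_left h2 hl
    omega
  have hs2 : ∑ x, f x = l * (f x1 + f x2) := by
    rw [mul_add, ← hOsum, ← hOsum, ← Finset.sum_union hd12]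
    symm
    apply Finset.sum_subset (Finset.subset_univ _)
    intro x _ hx
    by_contra hne
    exact hx (hcov x hne)
  rw [hsum] at hs2
  have hs3 : n = f x1 + f x2 := Nat.eq_of_mul_eq_mul_left hl hs2
  have ha := (h4 x1 hx1).1
  have hb := (h4 x2 hx2).1
  have hn8 : n = 8 := by omega
  have e1 : f x1 = 4 := by omega
  have e2 : f x2 = 4 := by omega
  refine ⟨hn8, ?_, ?_⟩
  · intro x hx
    rcases Finset.mem_union.1 (hcov x hx) with h | h
    · rw [hOf x1 x h, e1]
    · rw [hOf x2 x h, e2]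
  · have : Finset.univ.filter (fun x : X => f x ≠ 0) = O x1 ∪ O x2 := by
      ext x
      simp only [Finset.mem_filter, Finset.mem_univ, true_and]
      constructor
      · exact hcov x
      · intro h
        rcases Finset.mem_union.1 h with h | h
        · rw [hOf x1 x h, e1]; decide
        · rw [hOf x2 x h, e2]; decide
    rw [this, Finset.card_union_of_disjoint hd12, hOcard, hOcard]
    ring

/-- the order of `H_x` when `|H| = l 3^a`, and `H_x ≤ P_x` -/
theorem W1_Hx {k G X : Type} [Field k] [CharP k 3] [Group G] [Fintype G] [MulAction G X] [Fintype X]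
    {g : ℕ} (R : Ram k G X g) (hBA1 : BA1_stmt) (H : Subgroup G) (l a : ℕ) (hl : l.Prime)
    (hcH : Nat.card H = l * 3 ^ a) (x : X) (hst : ¬ l ∣ Nat.card (stabilizer G x)) :
    Nat.card (H ⊓ stabilizer G x : Subgroup G) ∣ 3 ^ a ∧ H ⊓ stabilizer G x = H ⊓ R.P x := by
  haveI : Fact (Nat.Prime 3) := ⟨Nat.prime_three⟩
  have h1 : Nat.card (H ⊓ stabilizer G x : Subgroup G) ∣ l * 3 ^ a := by
    rw [← hcH]; exact Subgroup.card_dvd_of_le inf_le_left
  have h2 : Nat.card (H ⊓ stabilizer G x : Subgroup G) ∣ Nat.card (stabilizer G x) :=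
    Subgroup.card_dvd_of_le inf_le_right
  have h3 : Nat.Coprime (Nat.card (H ⊓ stabilizer G x : Subgroup G)) l := by
    rw [Nat.coprime_comm, Nat.Prime.coprime_iff_not_dvd hl]
    exact fun h => hst (h.trans h2)
  have h4 : Nat.card (H ⊓ stabilizer G x : Subgroup G) ∣ 3 ^ a := Nat.Coprime.dvd_of_dvd_mul_left h3 h1
  obtain ⟨B1, B2, B3, -⟩ := hBA1 k G X g R x
  refine ⟨h4, le_antisymm ?_ ?_⟩
  · intro s hs
    refine ⟨hs.1, B3 s hs.2 ?_⟩
    obtain ⟨m, hm, hm'⟩ := (Nat.dvd_prime_pow Nat.prime_three).1 h4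
    refine ⟨m, ?_⟩
    have := pow_card_eq_one' (G := (H ⊓ stabilizer G x : Subgroup G)) (x := ⟨s, hs⟩)
    rw [hm'] at this
    exact congrArg Subtype.val this
  · intro s hs
    exact ⟨hs.1, ((B2 s).1 hs.2).1⟩

/-- `T_x(H)` for `H ∩ P_x` of order 3 -/
theorem W1_TS {k G X : Type} [Field k] [CharP k 3] [Group G] [Fintype G] [MulAction G X] [Fintype X]
    {g : ℕ} (R : Ram k G X g) (hBA1 : BA1_stmt) (H : Subgroup G) (x : X)
    (h3 : Nat.card (H ⊓ R.P x : Subgroup G) = 3) :
    ∃ s : G, s ∈ H ∧ s ∈ R.P x ∧ s ≠ 1 ∧ TS R H x = 2 * R.i x s := by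
  obtain ⟨B1, B2, B3, -⟩ := hBA1 k G X g R x
  have hfc : (Finset.univ.filter (fun s : G => s ∈ H ∧ s ∈ R.P x)).card = 3 := by
    rw [← h3, Nat.card_eq_fintype_card, Fintype.card_subtype]
    congr 1
    ext s
    simp [Subgroup.mem_inf]
  have hfe : Finset.univ.filter (fun s : G => s ∈ H ∧ s ∈ R.P x ∧ s ≠ 1) =
      (Finset.univ.filter (fun s : G => s ∈ H ∧ s ∈ R.P x)).erase 1 := by
    ext s
    simp only [Finset.mem_filter, Finset.mem_univ, true_and, Finset.mem_erase]
    tauto
  have hfc2 : (Finset.univ.filter (fun s : G => s ∈ H ∧ s ∈ R.P x ∧ s ≠ 1)).card = 2 := by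
    rw [hfe, Finset.card_erase_of_mem (by simp [one_mem]), hfc]
  obtain ⟨s, hs⟩ : (Finset.univ.filter (fun s : G => s ∈ H ∧ s ∈ R.P x ∧ s ≠ 1)).Nonempty := by
    rw [← Finset.card_pos, hfc2]; norm_num
  have hs' := hs
  simp only [Finset.mem_filter, Finset.mem_univ, true_and] at hs'
  obtain ⟨s1, s2, s3⟩ := hs'
  refine ⟨s, s1, s2, s3, ?_⟩
  have hsx : s • x = x := ((B2 s).1 s2).1
  have hne : s ≠ s⁻¹ := by
    intro h
    have hs1 : s ^ 2 = 1 := by
      rw [pow_two]
      nth_rewrite 2 [h]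
      exact mul_inv_cancel s
    have ho : orderOf s ∣ 2 := orderOf_dvd_of_pow_eq_one hs1
    have ho3 : orderOf s ∣ 3 := by
      rw [← h3]
      exact Subgroup.orderOf_dvd_natCard (H ⊓ R.P x) ⟨s1, s2⟩
    have : orderOf s = 1 := Nat.dvd_one.1 (by
      have := Nat.dvd_gcd ho ho3
      simpa using this)
    exact s3 (orderOf_eq_one_iff.1 this)
  have hset : ({s, s⁻¹} : Finset G) = Finset.univ.filter (fun s : G => s ∈ H ∧ s ∈ R.P x ∧ s ≠ 1) := by
    apply Finset.eq_of_subset_of_card_le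
    · intro t ht
      simp only [Finset.mem_insert, Finset.mem_singleton] at ht
      rcases ht with rfl | rfl
      · exact hs
      · simp only [Finset.mem_filter, Finset.mem_univ, true_and]
        exact ⟨inv_mem s1, inv_mem s2, inv_ne_one.2 s3⟩
    · rw [hfc2, Finset.card_pair hne]
  unfold TS
  rw [← hset, Finset.sum_pair hne, R.inv x s hsx]
  ring

/-- Riemann-Hurwitz in terms of `d` -/
theorem W1_RH {k G X : Type} [Field k] [Group G] [Fintype G] [MulAction G X] [Fintype X]
    {l : ℕ} (R : Ram k G X (l + 1)) (H : Subgroup G) :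
    ∃ γ : ℕ, 2 * l + 2 * Nat.card H = 2 * (Nat.card H * γ) + ∑ x : X, R.d H x := by
  obtain ⟨γ, h⟩ := R.RH H
  refine ⟨γ, ?_⟩
  have e : ((∑ x : X, R.d H x : ℕ) : ℤ) =
      ∑ x : X, ∑ s ∈ Finset.univ.filter (fun s : G => s ∈ H ∧ s ≠ 1 ∧ s • x = x), ((R.i x s : ℤ) + 1) := by
    unfold Ram.d
    push_cast
    rfl
  rw [← e] at h
  zify
  push_cast at h
  linarith

/-- the group `Λ⟨z⟩` for `z` of order 3 -/
theorem W1_H {k G X : Type} [Field k] [CharP k 3] [Group G] [Fintype G] [MulAction G X] [Fintype X]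
    {l : ℕ} (R : Ram k G X (l + 1)) (hBA1 : BA1_stmt) (hBA3 : BA3_stmt) (hBA4 : BA4_stmt)
    (Lam : Subgroup G) (hl : l.Prime) (hl5 : 5 < l) (hN : Lam.Normal) (hc : Nat.card Lam = l)
    (hst : ∀ x : X, ¬ l ∣ Nat.card (stabilizer G x)) (z : G) (hz : orderOf z = 3) :
    (∀ x : X, R.d (Lam ⊔ Subgroup.zpowers z) x ≠ 0 → R.d (Lam ⊔ Subgroup.zpowers z) x = 4) ∧
    (Finset.univ.filter (fun x : X => R.d (Lam ⊔ Subgroup.zpowers z) x ≠ 0)).card = 2 * l ∧
    (∀ x : X, ∀ s : G, s ∈ Lam ⊔ Subgroup.zpowers z → s ∈ R.P x → s ≠ 1 →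
      TS R (Lam ⊔ Subgroup.zpowers z) x = 2) := by
  haveI : Fact (Nat.Prime 3) := ⟨Nat.prime_three⟩
  set H : Subgroup G := Lam ⊔ Subgroup.zpowers z with hH
  have hzc : Nat.card (Subgroup.zpowers z) = 3 := by rw [Nat.card_zpowers, hz]
  have hzp : IsPGroup 3 (Subgroup.zpowers z) := IsPGroup.of_card (n := 1) (by rw [hzc]; rfl)
  have hcH : Nat.card H = l * 3 := by
    rw [hH, W1_card Lam (Subgroup.zpowers z) l hl (by omega) hN hc hzp, hzc]
  obtain ⟨γ, hγ⟩ := W1_RH R H
  -- local analysis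
  have hloc : ∀ x : X, R.d H x ≠ 0 → ∃ s : G, s ∈ H ∧ s ∈ R.P x ∧ s ≠ 1 ∧ TS R H x = 2 * R.i x s ∧
      R.d H x = 2 + TS R H x := by
    intro x hx
    obtain ⟨h1, h2⟩ := W1_Hx R hBA1 H l 1 hl (by rw [hcH, pow_one]) x (hst x)
    obtain ⟨C1, C2, C3, C4, C5, C6, C7, C8, -⟩ := hBA3 k G X (l + 1) R x H
    rw [pow_one] at h1
    rcases (Nat.dvd_prime Nat.prime_three).1 h1 with h | h
    · exact absurd (C7 (Subgroup.card_eq_one.1 h)) hx
    · rw [h] at C3
      rw [h2] at h
      obtain ⟨s, s1, s2, s3, s4⟩ := W1_TS R hBA1 H x h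
      exact ⟨s, s1, s2, s3, s4, by omega⟩
  have hloc2 : ∀ x : X, R.d H x ≠ 0 → ∃ i : ℕ, 1 ≤ i ∧ i % 3 ≠ 0 ∧ R.d H x = 2 + 2 * i := by
    intro x hx
    obtain ⟨s, s1, s2, s3, s4, s5⟩ := hloc x hx
    obtain ⟨B1, B2, B3, -⟩ := hBA1 k G X (l + 1) R x
    have h1 := (B2 s).1 s2
    have h2 : 1 ≤ R.i x s := h1.2.resolve_left s3
    exact ⟨R.i x s, h2, R.prime3 x s h1.1 s3 h2, by rw [s5, s4]⟩
  rw [hcH] at hγ
  have hγ1 : γ ≤ 1 := by
    by_contra h
    have : 2 ≤ γ := by omega
    have h2 : l * 3 * 2 ≤ l * 3 * γ := Nat.mul_le_mul_left _ this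
    omega
  have hmain := W1_sum Lam l (8 - 6 * γ) (by omega) (W1_free hBA4 Lam l hl hc hst) (fun x => R.d H x)
    (fun a ha x => by
      obtain ⟨C1, C2, C3, C4, C5, C6, C7, C8, -⟩ := hBA3 k G X (l + 1) R x H
      refine (C8 a ?_).1
      intro s
      have haH : a ∈ H := (le_sup_left : Lam ≤ H) ha
      constructor
      · intro h
        have := mul_mem (mul_mem (inv_mem haH) h) haH
        simpa [mul_assoc] using this
      · intro h
        exact mul_mem (mul_mem haH h) (inv_mem haH))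
    (fun x hx => by
      obtain ⟨i, hi1, hi3, hi⟩ := hloc2 x hx
      have hxe : R.d H x = 2 + 2 * i := hi
      show 4 ≤ R.d H x ∧ R.d H x ≠ 8 - 6 * γ
      rw [hxe]
      refine ⟨by omega, ?_⟩
      omega)
    (by
      interval_cases γ
      · have : ∑ x : X, R.d H x = l * 8 := by omega
        exact this
      · have : ∑ x : X, R.d H x = l * 2 := by omega
        exact this)
    (by omega) (by omega)
  obtain ⟨m1, m2, m3⟩ := hmain
  refine ⟨m2, m3, ?_⟩
  intro x s hs1 hs2 hs3
  have hd0 : R.d H x ≠ 0 := by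
    obtain ⟨C1, C2, C3, C4, C5, C6, C7, C8, -⟩ := hBA3 k G X (l + 1) R x H
    obtain ⟨B1, B2, B3, -⟩ := hBA1 k G X (l + 1) R x
    have h1 : 1 < Nat.card (H ⊓ stabilizer G x : Subgroup G) := by
      rw [Subgroup.one_lt_card_iff_ne_bot]
      intro h
      have : s ∈ (H ⊓ stabilizer G x : Subgroup G) := ⟨hs1, ((B2 s).1 hs2).1⟩
      rw [h] at this
      exact hs3 (Subgroup.mem_bot.1 this)
    omega
  obtain ⟨t, t1, t2, t3, t4, t5⟩ := hloc x hd0
  have h44 : R.d H x = 4 := m2 x hd0
  omega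

theorem W1 (hBA1 : BA1_stmt) (hBA3 : BA3_stmt) (hBA4 : BA4_stmt) (hC3 : C3_stmt) (hF3c : F3c_stmt) :
    W1_stmt := by
  intro k G X _ _ _ _ _ _ l R Lam hSp hN hc
  haveI : Fact (Nat.Prime 3) := ⟨Nat.prime_three⟩
  have hl := hSp.prime
  have hlarge := hSp.large
  have hst : ∀ x : X, ¬ l ∣ Nat.card (stabilizer G x) := (hF3c k G X l R hl (by omega)).2.1
  have hH := fun (z : G) (hz : orderOf z = 3) =>
    W1_H R hBA1 hBA3 hBA4 Lam hl (by omega) hN hc hst z hz
  have h9 : ¬ 9 ∣ Nat.card G := by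
    intro h9
    obtain ⟨S⟩ : Nonempty (Sylow 3 G) := inferInstance
    have hSp3 : IsPGroup 3 (S : Subgroup G) := S.isPGroup'
    obtain ⟨a, ha⟩ := IsPGroup.iff_card.1 hSp3
    have hS9 : 9 ∣ Nat.card (S : Subgroup G) := by
      have := S.pow_dvd_card_of_pow_dvd_card (n := 2) (by simpa using h9)
      simpa using this
    have hS9' : 9 ≤ Nat.card (S : Subgroup G) := Nat.le_of_dvd Nat.card_pos hS9
    -- central element of order 3
    haveI : Nontrivial (S : Subgroup G) := by
      rw [← Finite.one_lt_card_iff_nontrivial]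
      omega
    haveI hcn : Nontrivial (Subgroup.center (S : Subgroup G)) := hSp3.center_nontrivial
    have hcen : IsPGroup 3 (Subgroup.center (S : Subgroup G)) := hSp3.to_subgroup _
    obtain ⟨w, hw⟩ : ∃ w : Subgroup.center (S : Subgroup G), orderOf w = 3 := by
      have hd : 3 ∣ Nat.card (Subgroup.center (S : Subgroup G)) := by
        obtain ⟨n, hn⟩ := IsPGroup.iff_card.1 hcen
        rw [hn]
        have : n ≠ 0 := by
          rintro rfl
          have := Finite.one_lt_card_iff_nontrivial.2 hcn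
          omega
        exact dvd_pow_self 3 this
      exact exists_prime_orderOf_dvd_card' 3 hd
    set z : G := ((w : (S : Subgroup G)) : G) with hzdef
    have hz : orderOf z = 3 := by
      rw [hzdef, Subgroup.orderOf_coe, Subgroup.orderOf_coe, hw]
    have hzS : ∀ s ∈ (S : Subgroup G), s * z = z * s := by
      intro s hs
      have := Subgroup.mem_center_iff.1 w.2 ⟨s, hs⟩
      exact congrArg Subtype.val this
    obtain ⟨m1, m2, m3⟩ := hH z hz
    set H : Subgroup G := Lam ⊔ Subgroup.zpowers z with hHdef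
    set K : Subgroup G := Lam ⊔ (S : Subgroup G) with hKdef
    have hcK : Nat.card K = l * Nat.card (S : Subgroup G) :=
      W1_card Lam S l hl (by omega) hN hc hSp3
    -- `K` normalises `H`
    have hnorm : ∀ a ∈ K, ∀ s : G, a * s * a⁻¹ ∈ H ↔ s ∈ H := by
      have hle : K ≤ Subgroup.normalizer (H : Set G) := by
        rw [hKdef]
        apply sup_le
        · exact le_trans (le_sup_left : Lam ≤ H) Subgroup.le_normalizer
        · intro s hs
          rw [Subgroup.mem_normalizer_iff]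
          have key : ∀ t ∈ (S : Subgroup G), ∀ h ∈ H, t * h * t⁻¹ ∈ H := by
            intro t ht h hh
            have hmap : H ≤ H.comap (MulAut.conj t).toMonoidHom := by
              rw [hHdef]
              apply sup_le
              · intro v hv
                show t * v * t⁻¹ ∈ H
                exact (le_sup_left : Lam ≤ H) (hN.conj_mem v hv t)
              · rw [Subgroup.zpowers_le]
                show t * z * t⁻¹ ∈ H
                rw [hzS t ht, mul_assoc, mul_inv_cancel, mul_one]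
                exact (le_sup_right : Subgroup.zpowers z ≤ H) (Subgroup.mem_zpowers z)
            exact hmap hh
          intro h
          constructor
          · exact key s hs h
          · intro h'
            have := key s⁻¹ (inv_mem hs) _ h'
            simpa [mul_assoc] using this
      intro a ha s
      exact ((Subgroup.mem_normalizer_iff.1 (hle ha)) s).symm
    have hdinv : ∀ a ∈ K, ∀ x : X, R.d H (a • x) = R.d H x := by
      intro a ha x
      obtain ⟨C1, C2, C3, C4, C5, C6, C7, C8, -⟩ := hBA3 k G X (l + 1) R x H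
      exact (C8 a (hnorm a ha)).1
    -- sizes of `K_x`
    have hKx : ∀ x : X, R.d H x ≠ 0 → 2 * Nat.card (S : Subgroup G) ≤ R.d K x + 2 := by
      intro x hx
      have horb := W1_orb hBA4 K x
      obtain ⟨h1, h2⟩ := W1_Hx R hBA1 K l a hl (by rw [hcK, ha]) x (hst x)
      obtain ⟨C1, C2, C3, C4, C5, C6, C7, C8, -⟩ := hBA3 k G X (l + 1) R x K
      -- the orbit has at most 2 l points
      have hle : Nat.card (orbit K x) ≤ 2 * l := by
        rw [← m2, Nat.card_eq_fintype_card, ← Set.toFinset_card]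
        apply Finset.card_le_card
        intro y hy
        rw [Set.mem_toFinset] at hy
        obtain ⟨a, rfl⟩ := hy
        simp only [Finset.mem_filter, Finset.mem_univ, true_and]
        show R.d H ((a : G) • x) ≠ 0
        rw [hdinv a a.2 x]
        exact hx
      rw [hcK] at horb
      have hldvd : l ∣ Nat.card (orbit K x) := by
        have h5 : l ∣ Nat.card (orbit K x) * Nat.card (K ⊓ stabilizer G x : Subgroup G) := by
          rw [horb]; exact dvd_mul_right _ _
        rcases (Nat.Prime.dvd_mul hl).1 h5 with h | h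
        · exact h
        · exact absurd (h.trans (Subgroup.card_dvd_of_le inf_le_right)) (hst x)
      obtain ⟨m, hm⟩ := hldvd
      have hm2 : m ≤ 2 := by
        rw [hm] at hle
        by_contra h
        have : l * 3 ≤ l * m := Nat.mul_le_mul_left _ (by omega)
        omega
      have hodd : ¬ 2 ∣ m := by
        intro h
        have h6 : 2 ∣ l * Nat.card (S : Subgroup G) := by
          rw [← horb, hm]
          exact Dvd.dvd.mul_right (Dvd.dvd.mul_left h _) _
        rcases (Nat.Prime.dvd_mul Nat.prime_two).1 h6 with h7 | h7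
        · have := hSp.mod8
          omega
        · rw [ha] at h7
          have := Nat.Prime.dvd_of_dvd_pow Nat.prime_two h7
          omega
      have hm1 : m = 1 := by
        have : m ≠ 0 := by
          rintro rfl
          exact hodd (dvd_zero _)
        interval_cases m
        · omega
        · rfl
        · exact absurd (dvd_refl 2) hodd
      rw [hm, hm1, mul_one] at horb
      have hcKx : Nat.card (K ⊓ stabilizer G x : Subgroup G) = Nat.card (S : Subgroup G) :=
        Nat.eq_of_mul_eq_mul_left hl.pos horb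
      rw [← h2, hcKx] at C2
      rw [hcKx] at C3
      omega
    -- Riemann-Hurwitz for `K`
    obtain ⟨γ, hγ⟩ := W1_RH R K
    have hsum : 2 * l * (2 * Nat.card (S : Subgroup G) - 2) ≤ ∑ x : X, R.d K x := by
      calc 2 * l * (2 * Nat.card (S : Subgroup G) - 2)
          = ∑ x ∈ Finset.univ.filter (fun x : X => R.d H x ≠ 0), (2 * Nat.card (S : Subgroup G) - 2) := by
            rw [Finset.sum_const, m2, smul_eq_mul]
        _ ≤ ∑ x ∈ Finset.univ.filter (fun x : X => R.d H x ≠ 0), R.d K x := by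
            apply Finset.sum_le_sum
            intro x hx
            simp only [Finset.mem_filter, Finset.mem_univ, true_and] at hx
            have := hKx x hx
            omega
        _ ≤ ∑ x : X, R.d K x := Finset.sum_le_sum_of_subset (Finset.subset_univ _)
    rw [hcK] at hγ
    have h10 : 2 * l * (2 * Nat.card (S : Subgroup G) - 2) ≤ 2 * l + 2 * (l * Nat.card (S : Subgroup G)) := by
      omega
    have h11 : 2 * l * (2 * Nat.card (S : Subgroup G) - 2) ≤ 2 * l * (1 + Nat.card (S : Subgroup G)) := by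
      calc _ ≤ 2 * l + 2 * (l * Nat.card (S : Subgroup G)) := h10
        _ = 2 * l * (1 + Nat.card (S : Subgroup G)) := by ring
    have h12 := Nat.le_of_mul_le_mul_left h11 (by omega)
    omega
  refine ⟨h9, ?_⟩
  intro x hx
  obtain ⟨B1, B2, B3, B4, B5, B6, B7, B8, ⟨m, hm⟩, c, hcC⟩ := hBA1 k G X (l + 1) R x
  have hqle : qq R x ∣ Nat.card G := Subgroup.card_subgroup_dvd_card _
  have hm0 : m ≠ 0 := by
    rintro rfl
    exact hx (Subgroup.card_eq_one.1 hm)
  have hm1 : m < 2 := by
    by_contra h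
    have : 3 ^ 2 ∣ 3 ^ m := pow_dvd_pow 3 (by omega)
    rw [← hm] at this
    exact h9 (by simpa using this.trans hqle)
  have hm' : m = 1 := by omega
  have hq3 : qq R x = 3 := by rw [hm, hm']; rfl
  have hP3 : Nat.card (R.P x) = 3 := hq3
  -- a generator
  obtain ⟨s, hs, hs1⟩ : ∃ s ∈ R.P x, s ≠ 1 := by
    by_contra h
    push Not at h
    exact hx ((Subgroup.eq_bot_iff_forall _).2 h)
  have hos : orderOf s = 3 := by
    have h1 : orderOf s ∣ 3 := by
      rw [← hP3]
      exact Subgroup.orderOf_dvd_natCard (R.P x) hs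
    rcases (Nat.dvd_prime Nat.prime_three).1 h1 with h | h
    · exact absurd (orderOf_eq_one_iff.1 h) hs1
    · exact h
  obtain ⟨m1, m2, m3⟩ := hH s hos
  have hsH : s ∈ Lam ⊔ Subgroup.zpowers s :=
    (le_sup_right : Subgroup.zpowers s ≤ Lam ⊔ Subgroup.zpowers s) (Subgroup.mem_zpowers s)
  have hTS := m3 x s hsH hs hs1
  have hPle : R.P x ≤ Lam ⊔ Subgroup.zpowers s := by
    have : Subgroup.zpowers s = R.P x := by
      apply Subgroup.eq_of_le_of_card_ge
      · rwa [Subgroup.zpowers_le]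
      · rw [hP3, Nat.card_zpowers, hos]
    rw [← this]
    exact le_sup_right
  obtain ⟨C1, C2, C3, C4, C5, C6, C7, C8, -⟩ := hBA3 k G X (l + 1) R x (Lam ⊔ Subgroup.zpowers s)
  have hT : R.T x = 2 := by rw [← C4 hPle, hTS]
  refine ⟨hq3, hT, ?_⟩
  have hh2 := (hC3 k G X (l + 1) R x c hcC).2.1
  rw [hT] at hh2
  exact (Nat.dvd_prime Nat.prime_two).1 hh2

end

end Pool.Agent.helper75.AU
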